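import Pool.Agent.SwX.Basic

/-! ROW A6. Averages over the staircases. -/

namespace Pool.Agent.SwX

variable [Pool.Agent.SwP.Dim]
set_option maxHeartbeats 400000

open Finset Filter
open scoped Classical
open Pool.Agent.SwP

-- BEGIN av1
theorem card_Om (K : ℕ) (R : ℕ → ℕ) : (Om K R).card = ∏ j ∈ range K, R j := by
  unfold Om
  rw [card_image_of_injective, Fintype.card_piFinset]
  · rw [← Fin.prod_univ_eq_prod_range]
    refine Finset.prod_congr rfl fun j _ => ?_
    rw [Nat.card_Ico]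
    omega
  · intro v w hvw
    funext i
    have h := congrFun hvw (i : ℕ)
    simpa using h
-- END av1

theorem Om_pos {K : ℕ} {R : ℕ → ℕ} (hR : ∀ j, 1 ≤ R j) : 0 < (Om K R).card := by
  rw [card_Om]
  exact prod_pos fun j _ => hR j

-- BEGIN av2
theorem mem_Om {K : ℕ} {R : ℕ → ℕ} {ω : ℕ → ℕ} (h : ω ∈ Om K R) {j : ℕ} (hj : j < K) :
    R j ≤ ω j ∧ ω j < 2 * R j := by
  unfold Om at h
  rw [mem_image] at h
  obtain ⟨v, hv, rfl⟩ := h
  have hv' := (Fintype.mem_piFinset.1 hv) ⟨j, hj⟩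
  rw [mem_Ico] at hv'
  simpa [hj] using hv'
-- END av2

-- BEGIN av3
private theorem av3_mem {K : ℕ} {R : ℕ → ℕ} {ω : ℕ → ℕ} :
    ω ∈ Om K R ↔ (∀ i, i < K → R i ≤ ω i ∧ ω i < 2 * R i) ∧ ∀ i, K ≤ i → ω i = 0 := by
  unfold Om
  rw [mem_image]
  constructor
  · rintro ⟨v, hv, rfl⟩
    rw [Fintype.mem_piFinset] at hv
    refine ⟨fun i hi => ?_, fun i hi => ?_⟩
    · have h1 := hv ⟨i, hi⟩
      rw [mem_Ico] at h1
      simp only [hi, dif_pos]
      exact h1
    · simp only [not_lt.2 hi, dif_neg, not_false_eq_true]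
  · rintro ⟨h1, h2⟩
    refine ⟨fun i => ω i, ?_, ?_⟩
    · rw [Fintype.mem_piFinset]
      intro i
      rw [mem_Ico]
      exact h1 i i.2
    · funext i
      by_cases hi : i < K
      · simp only [hi, dif_pos]
      · simp only [hi, dif_neg, not_false_eq_true]
        exact (h2 i (not_lt.1 hi)).symm

private theorem av3_dr {j a b : ℕ} (ha : a ∈ Ico (j - dd) j) (hb : b ∈ Ico (j - dd) j)
    (h : dr a = dr b) : a = b := by
  have h1 := congrArg Fin.val h
  simp only [dr] at h1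
  rw [mem_Ico] at ha hb
  have key : ∀ x y : ℕ, x ≤ y → y < x + (Dim.k + 2) →
      (x + 1) % (Dim.k + 2) = (y + 1) % (Dim.k + 2) → x = y := by
    intro x y hxy hy he
    have h2 : (Dim.k + 2) ∣ (y + 1) - (x + 1) := (Nat.modEq_iff_dvd' (by omega)).1 he
    obtain ⟨c, hc⟩ := h2
    rcases Nat.eq_zero_or_pos c with rfl | hc0
    · omega
    · have : Dim.k + 2 ≤ (Dim.k + 2) * c := Nat.le_mul_of_pos_right _ hc0
      omega
  rcases le_total a b with hab | hab
  · exact key a b hab (by simp only [dd] at ha hb; omega) h1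
  · exact (key b a hab (by simp only [dd] at ha hb; omega) h1.symm).symm

/-- **Density of the corners.** Changing `ω i` for `i ∈ [j - d, j)` arbitrarily is
injective on the `ω` with `cor ω j = z` (they are determined by `z` and the other ones). -/
theorem card_cor {K : ℕ} {R : ℕ → ℕ} {j : ℕ} (h3 : dd ≤ j) (hj : j ≤ K) (z : Pt) :
    ((Om K R).filter (fun ω => cor ω j = z)).card * (∏ i ∈ Ico (j - dd) j, R i)
      ≤ (Om K R).card := by
  have hcard : ((Om K R).filter (fun ω => cor ω j = z)).card * (∏ i ∈ Ico (j - dd) j, R i) =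
      (((Om K R).filter (fun ω => cor ω j = z)) ×ˢ
        (Finset.pi (Ico (j - dd) j) fun i => range (R i))).card := by
    rw [card_product, Finset.card_pi]
    simp only [card_range]
  rw [hcard]
  refine Finset.card_le_card_of_injOn
    (fun q : (ℕ → ℕ) × (∀ i ∈ Ico (j - dd) j, ℕ) => fun i : ℕ =>
      if h : i ∈ Ico (j - dd) j then R i + q.2 i h else q.1 i) ?_ ?_
  · rintro ⟨ω, v⟩ hq
    rw [mem_coe, mem_product, mem_filter, Finset.mem_pi] at hq
    obtain ⟨⟨hω, -⟩, hv⟩ := hq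
    simp only at hω hv
    rw [av3_mem] at hω
    rw [mem_coe, av3_mem]
    refine ⟨fun i hi => ?_, fun i hi => ?_⟩
    · have h1 := hω.1 i hi
      simp only
      split_ifs with c1
      · have h2 := mem_range.1 (hv i c1)
        omega
      · exact h1
    · simp only
      rw [dif_neg (by rw [mem_Ico]; omega)]
      exact hω.2 i hi
  · rintro ⟨ω, v⟩ hq ⟨ω', v'⟩ hq' heq
    rw [mem_coe, mem_product, mem_filter] at hq hq'
    have hz : cor ω j = z := hq.1.2
    have hz' : cor ω' j = z := hq'.1.2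
    have hv := fun i => congrFun heq i
    simp only at hv
    have hvv : v = v' := by
      funext i hi
      have h1 := hv i
      rw [dif_pos hi, dif_pos hi] at h1
      omega
    have ho : ∀ i, i ∉ Ico (j - dd) j → ω i = ω' i := by
      intro i i1
      have h1 := hv i
      rw [dif_neg i1, dif_neg i1] at h1
      exact h1
    have hsplit : ∀ u : ℕ → ℕ, cor u j = (∑ i ∈ range (j - dd), ax (dr i) (u i)) +
        ∑ i ∈ Ico (j - dd) j, ax (dr i) (u i) := by
      intro u
      unfold cor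
      rw [← Finset.sum_range_add_sum_Ico _ (Nat.sub_le j dd)]
    have hcor : (∑ i ∈ range (j - dd), ax (dr i) ((ω i : ℕ) : ℤ)) =
        ∑ i ∈ range (j - dd), ax (dr i) ((ω' i : ℕ) : ℤ) := by
      refine sum_congr rfl fun i hi => ?_
      rw [mem_range] at hi
      rw [ho i (by rw [mem_Ico]; omega)]
    have h5 : cor ω j = cor ω' j := hz.trans hz'.symm
    rw [hsplit, hsplit, hcor] at h5
    have h6 := add_left_cancel h5
    have h7 : ∀ (u : ℕ → ℕ) (i0 : ℕ), i0 ∈ Ico (j - dd) j →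
        (∑ i ∈ Ico (j - dd) j, ax (dr i) ((u i : ℕ) : ℤ)) (dr i0) = u i0 := by
      intro u i0 hi0
      rw [Finset.sum_apply, Finset.sum_eq_single i0]
      · simp [ax]
      · intro i hi hne
        simp only [ax]
        rw [Pi.single_eq_of_ne]
        intro he
        exact hne (av3_dr hi hi0 he.symm)
      · intro h; exact absurd hi0 h
    have hω : ω = ω' := by
      funext i
      by_cases hi : i ∈ Ico (j - dd) j
      · have h8 := congrFun h6 (dr i)
        rw [h7 ω i hi, h7 ω' i hi] at h8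
        exact_mod_cast h8
      · exact ho i hi
    rw [hvv, hω]
-- END av3

-- BEGIN av4
/-- sum over the translations: each pair of points of `S` and `X` is met by one corner -/
theorem sum_hits {K : ℕ} {R : ℕ → ℕ} {j : ℕ} (h3 : dd ≤ j) (hj : j ≤ K)
    (c : Pt) (S X : Finset Pt) :
    (∑ ω ∈ Om K R, ((tr (cor ω j + c) S ∩ X).card : ℝ)) *
      (∏ i ∈ Ico (j - dd) j, (R i : ℝ)) ≤ (Om K R).card * (S.card * X.card) := by
  have h1 : ∀ ω ∈ Om K R, (tr (cor ω j + c) S ∩ X).card ≤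
      ∑ q ∈ S ×ˢ X, if cor ω j = q.2 - q.1 - c then 1 else 0 := by
    intro ω _
    rw [← card_filter]
    refine (card_le_card (t := ((S ×ˢ X).filter fun q => cor ω j = q.2 - q.1 - c).image
      fun q => q.2) fun z hz => ?_).trans card_image_le
    rw [mem_inter, mem_tr] at hz
    refine mem_image.2 ⟨(z - (cor ω j + c), z), mem_filter.2 ⟨mem_product.2 ⟨hz.1, hz.2⟩, ?_⟩, rfl⟩
    simp only
    abel
  have h2 : (∑ ω ∈ Om K R, (tr (cor ω j + c) S ∩ X).card) * (∏ i ∈ Ico (j - dd) j, R i)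
      ≤ (Om K R).card * (S.card * X.card) := by
    calc (∑ ω ∈ Om K R, (tr (cor ω j + c) S ∩ X).card) * (∏ i ∈ Ico (j - dd) j, R i)
        ≤ (∑ ω ∈ Om K R, ∑ q ∈ S ×ˢ X, if cor ω j = q.2 - q.1 - c then 1 else 0) *
          (∏ i ∈ Ico (j - dd) j, R i) := Nat.mul_le_mul_right _ (sum_le_sum h1)
      _ = ∑ q ∈ S ×ˢ X, ((Om K R).filter fun ω => cor ω j = q.2 - q.1 - c).card *
          (∏ i ∈ Ico (j - dd) j, R i) := by
        rw [sum_comm, sum_mul]
        refine sum_congr rfl fun q _ => ?_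
        rw [card_filter]
      _ ≤ ∑ q ∈ S ×ˢ X, (Om K R).card := sum_le_sum fun q _ => card_cor h3 hj _
      _ = (Om K R).card * (S.card * X.card) := by
        rw [sum_const, card_product, smul_eq_mul, mul_comm]
  exact_mod_cast h2
-- END av4

-- BEGIN av5
theorem av5_cnt {K : ℕ} {R : ℕ → ℕ} {ω : ℕ → ℕ} (h : ω ∈ Om K R) {j : ℕ} (hj : j < K)
    (X : Finset Pt) (ρ : ℕ) : cnt X ω j ρ ≤ ∑ s ∈ range (2 * R j), ∑ y ∈ nb X ρ,
      if cor ω j = y - ax (dr j) (s : ℤ) then 1 else 0 := by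
  unfold cnt
  have hsub : ((range (ω j)).filter fun s : ℕ =>
      ∃ p ∈ X, ∀ k, |p k - (cor ω j + ax (dr j) (s : ℤ)) k| < (ρ : ℤ)) ⊆
      (range (2 * R j)).filter fun s : ℕ => cor ω j + ax (dr j) (s : ℤ) ∈ nb X ρ := by
    intro s hs
    rw [mem_filter, mem_range] at hs ⊢
    have := (mem_Om h hj).2
    exact ⟨by omega, mem_nb.2 hs.2⟩
  refine (card_le_card hsub).trans ?_
  rw [card_filter]
  refine Finset.sum_le_sum fun s _ => ?_
  split_ifs with hy
  · refine le_trans ?_ (Finset.single_le_sum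
      (f := fun y => if cor ω j = y - ax (dr j) (s : ℤ) then 1 else 0)
      (fun _ _ => Nat.zero_le _) hy)
    rw [if_pos (by abel)]
  · exact Nat.zero_le _

/-- the mean number of positions near `X`: sum over the positions `s < 2 R j` and over the
points of `nb X ρ` -/
theorem avg_cnt {K : ℕ} {R : ℕ → ℕ} {j : ℕ} (h3 : dd ≤ j) (hj : j < K)
    (X : Finset Pt) (ρ : ℕ) :
    (∑ ω ∈ Om K R, (cnt X ω j ρ : ℝ)) * (∏ i ∈ Ico (j - dd) j, (R i : ℝ))
      ≤ (Om K R).card * (2 * R j * (nb X ρ).card) := by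
  have h1 : (∑ ω ∈ Om K R, cnt X ω j ρ) * (∏ i ∈ Ico (j - dd) j, R i)
      ≤ (Om K R).card * (2 * R j * (nb X ρ).card) := by
    have h2 : ∑ ω ∈ Om K R, cnt X ω j ρ ≤ ∑ s ∈ range (2 * R j), ∑ y ∈ nb X ρ,
        ((Om K R).filter (fun ω => cor ω j = y - ax (dr j) (s : ℤ))).card := by
      refine (Finset.sum_le_sum fun ω hω => av5_cnt hω hj X ρ).trans (le_of_eq ?_)
      rw [Finset.sum_comm]
      refine Finset.sum_congr rfl fun s _ => ?_
      rw [Finset.sum_comm]
      refine Finset.sum_congr rfl fun y _ => ?_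
      rw [card_filter]
    refine (Nat.mul_le_mul_right _ h2).trans ?_
    rw [Finset.sum_mul]
    calc ∑ s ∈ range (2 * R j), (∑ y ∈ nb X ρ,
          ((Om K R).filter (fun ω => cor ω j = y - ax (dr j) (s : ℤ))).card)
            * (∏ i ∈ Ico (j - dd) j, R i)
        ≤ ∑ _s ∈ range (2 * R j), ((nb X ρ).card * (Om K R).card) := by
          refine Finset.sum_le_sum fun s _ => ?_
          rw [Finset.sum_mul]
          calc _ ≤ ∑ _y ∈ nb X ρ, (Om K R).card :=
                Finset.sum_le_sum fun y _ => card_cor h3 hj.le _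
            _ = _ := by rw [Finset.sum_const, smul_eq_mul]
      _ = _ := by
          rw [Finset.sum_const, card_range, smul_eq_mul]
          ring
  exact_mod_cast h1
-- END av5

theorem cnt_le (X : Finset Pt) (ω : ℕ → ℕ) (j ρ : ℕ) : cnt X ω j ρ ≤ ω j := by
  unfold cnt
  exact (card_filter_le _ _).trans (card_range _).le

-- BEGIN av6
theorem av6_obs {X : Finset Pt} {ω : ℕ → ℕ} {j s ρ : ℕ}
    (h : ∃ p ∈ obs X ω j, ∀ k, ¬ (ρ : ℤ) ≤ |p k - ax 0 s k|) :
    ∃ p ∈ X, ∀ k, |p k - (cor ω j + ax (dr j) (s : ℤ)) k| < (ρ : ℤ) := by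
  obtain ⟨p, hp, hk⟩ := h
  unfold obs at hp
  obtain ⟨q, hq, rfl⟩ := mem_image.1 hp
  unfold tr at hq
  obtain ⟨p, hpX, rfl⟩ := mem_image.1 hq
  refine ⟨p, hpX, fun k => ?_⟩
  have h1 := hk (Equiv.swap 0 (dr j) k)
  have h2 : (perm (Equiv.swap 0 (dr j))).A (- cor ω j + p) (Equiv.swap 0 (dr j) k)
      = (- cor ω j + p) k := by
    show (- cor ω j + p) ((Equiv.swap 0 (dr j)).symm (Equiv.swap 0 (dr j) k)) = _
    rw [Equiv.symm_apply_apply]
  have h3 : ax 0 (s : ℤ) (Equiv.swap 0 (dr j) k) = ax (dr j) (s : ℤ) k := by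
    unfold ax
    by_cases hkd : k = dr j
    · subst hkd
      rw [Equiv.swap_apply_right, Pi.single_eq_same, Pi.single_eq_same]
    · rw [Pi.single_eq_of_ne hkd, Pi.single_eq_of_ne]
      intro h0
      apply hkd
      have h4 := congrArg (Equiv.swap 0 (dr j)) h0
      rwa [Equiv.swap_apply_self, Equiv.swap_apply_left] at h4
  rw [h2, h3, not_le] at h1
  have h5 : p k - (cor ω j + ax (dr j) (s : ℤ)) k = (- cor ω j + p) k - ax (dr j) (s : ℤ) k := by
    simp only [Pi.add_apply, Pi.neg_apply]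
    ring
  rw [h5]
  exact h1

theorem av6_card (X : Finset Pt) (ω : ℕ → ℕ) (j ρ : ℕ) :
    ((range (ω j)).filter fun s : ℕ => ¬ Free (obs X ω j) (ω j) s ρ).card
      ≤ 2 * ρ + cnt X ω j ρ := by
  have h1 : ((range (ω j)).filter fun s : ℕ => ¬ Free (obs X ω j) (ω j) s ρ) ⊆
      (range ρ ∪ Ico (ω j - ρ) (ω j - ρ + ρ)) ∪ ((range (ω j)).filter fun s : ℕ =>
        ∃ p ∈ X, ∀ k, |p k - (cor ω j + ax (dr j) (s : ℤ)) k| < (ρ : ℤ)) := by
    intro s hs
    rw [mem_filter, mem_range] at hs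
    obtain ⟨hs1, hs2⟩ := hs
    rw [mem_union, mem_union, mem_range, mem_Ico, mem_filter, mem_range]
    by_cases h2 : s < ρ
    · exact Or.inl (Or.inl h2)
    · by_cases h3 : ω j < s + ρ
      · exact Or.inl (Or.inr ⟨by omega, by omega⟩)
      · refine Or.inr ⟨hs1, av6_obs ?_⟩
        by_contra h4
        apply hs2
        refine ⟨by omega, by omega, fun p hp => ?_⟩
        by_contra h5
        exact h4 ⟨p, hp, fun k hk => h5 ⟨k, hk⟩⟩
  refine (card_le_card h1).trans ((card_union_le _ _).trans ?_)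
  have h2 : (range ρ ∪ Ico (ω j - ρ) (ω j - ρ + ρ)).card ≤ 2 * ρ := by
    refine (card_union_le _ _).trans ?_
    rw [card_range, Nat.card_Ico]
    omega
  unfold cnt
  omega

/-- the cost of a segment: a position which is not free is near an end or near `X` -/
theorem sc_le {X : Finset Pt} {ω : ℕ → ℕ} {j m I : ℕ} {a : ℕ → ℝ} (ha : ∀ i, 0 ≤ a i) :
    sc (obs X ω j) (ω j) m I a ≤ ω j * a I + ∑ i ∈ range I,
      a i * (400 * (m : ℝ) ^ (i + 1) + cnt X ω j (200 * m ^ (i + 1))) := by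
  unfold sc
  rw [sum_comm, sum_range_succ, add_comm]
  refine add_le_add (le_of_eq ?_) (sum_le_sum fun i hi => ?_)
  · simp
  · have hiI : i ≠ I := (mem_range.1 hi).ne
    have h1 : ∀ s ∈ range (ω j), (if i = I ∨ ¬ Free (obs X ω j) (ω j) s (200 * m ^ (i + 1))
        then a i else 0) = if ¬ Free (obs X ω j) (ω j) s (200 * m ^ (i + 1)) then a i else 0 := by
      intro s _
      simp only [hiI, false_or]
    rw [sum_congr rfl h1, ← sum_filter, sum_const, nsmul_eq_mul, mul_comm]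
    refine mul_le_mul_of_nonneg_left ?_ (ha i)
    have h2 := av6_card X ω j (200 * m ^ (i + 1))
    have h3 : ((((range (ω j)).filter fun s : ℕ =>
        ¬ Free (obs X ω j) (ω j) s (200 * m ^ (i + 1))).card : ℕ) : ℝ)
        ≤ ((2 * (200 * m ^ (i + 1)) + cnt X ω j (200 * m ^ (i + 1)) : ℕ) : ℝ) := by
      exact_mod_cast h2
    refine h3.trans (le_of_eq ?_)
    push_cast
    ring
-- END av6

end Pool.Agent.SwX
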