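import Pool.Agent.SwX.Defs

/-! ROW A1. Subadditivity of `FF`; elementary facts on `nb`, `ax`, `bk`. -/

namespace Pool.Agent.SwX

variable [Pool.Agent.SwP.Dim]
set_option maxHeartbeats 400000

open Finset Filter
open scoped Classical
open Pool.Agent.SwP

-- BEGIN ba1

-- END ba1

-- BEGIN ba2
theorem mem_nb {X : Finset Pt} {ρ : ℕ} {z : Pt} :
    z ∈ nb X ρ ↔ ∃ p ∈ X, ∀ k, |p k - z k| < (ρ : ℤ) := by
  unfold nb
  rw [mem_biUnion]
  refine exists_congr fun p => and_congr_right fun _ => ?_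
  rw [Fintype.mem_piFinset]
  refine forall_congr' fun k => ?_
  rw [mem_Ioo, abs_lt]
  constructor <;> intro h <;> constructor <;> linarith [h.1, h.2]

/-- neighbourhoods of neighbourhoods: if every point of `X` is at distance less than `r` of a
point of `Y` then the `ρ`-neighbourhood of `X` has at most `|Y| (2 (ρ + r) + 1) ^ 3` points -/
theorem card_nb_le {X Y : Finset Pt} {r : ℕ} (h : ∀ p ∈ X, ∃ q ∈ Y, ∀ k, |q k - p k| < (r : ℤ))
    (ρ : ℕ) : (nb X ρ).card ≤ Y.card * (2 * (ρ + r) + 1) ^ dd := by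
  have h1 : nb X ρ ⊆ nb Y (ρ + r) := by
    intro z hz
    obtain ⟨p, hp, h2⟩ := mem_nb.1 hz
    obtain ⟨q, hq, h3⟩ := h p hp
    refine mem_nb.2 ⟨q, hq, fun k => ?_⟩
    have h4 := abs_lt.1 (h2 k)
    have h5 := abs_lt.1 (h3 k)
    rw [abs_lt]
    push_cast
    constructor <;> linarith [h4.1, h4.2, h5.1, h5.2]
  refine (card_le_card h1).trans ?_
  unfold nb
  refine card_biUnion_le.trans ?_
  refine (sum_le_card_nsmul _ _ ((2 * (ρ + r) + 1) ^ dd) fun p _ => ?_).trans
    (le_of_eq (by rw [smul_eq_mul]))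
  rw [Fintype.card_piFinset]
  have h6 : ∀ k : Ix, (Ioo (p k - ((ρ + r : ℕ) : ℤ)) (p k + ((ρ + r : ℕ) : ℤ))).card ≤
      2 * (ρ + r) + 1 := by
    intro k
    rw [Int.card_Ioo]
    omega
  refine (prod_le_prod' fun k _ => h6 k).trans (le_of_eq ?_)
  rw [prod_const, card_univ, Fintype.card_fin]
-- END ba2

theorem card_bk_le (A : Word) : (bk A).card ≤ A.length + 1 := by
  unfold bk
  rw [card_tr]
  exact card_pts_le A

end Pool.Agent.SwX
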