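import Pool.Agent.SwX.Basic

/-! ROW A3. Blocks. -/

namespace Pool.Agent.SwX

variable [Pool.Agent.SwP.Dim]
set_option maxHeartbeats 400000

open Finset Filter
open scoped Classical
open Pool.Agent.SwP

-- BEGIN bl1

-- END bl1

-- BEGIN bl2
/-- the reflection of all coordinates except `0` -/
private def bl2_S : Sy := rtr

private theorem bl2_A (v : Pt) (k : Ix) : bl2_S.A v k = if k = 0 then v k else - v k := rfl

private theorem bl2_abs (v : Pt) (k : Ix) : |bl2_S.A v k| = |v k| := by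
  rw [bl2_A]
  split_ifs
  · rfl
  · exact abs_neg _

/-- a family of bridges with the same displacement gives a straight law: a word followed by an
independent one with the coordinates other than `0` reflected (`exists_law`, `Law.conv`, `Law.map`) -/
theorem straighten {x : ℝ} (hx : 0 < x) (L : ℕ) {F : Finset Word} {E : ℝ} {v : Pt} {n r : ℕ}
    (hF : ∀ w ∈ F, Br w ∧ D w = v ∧ w.length ≤ n ∧ ∀ p ∈ pts w, ∀ k, |p k| ≤ (r : ℤ))
    (hE : Real.exp (-E) ≤ ∑ w ∈ F, x ^ w.length) :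
    ∃ B : Law, (∀ i, Br (B.f i) ∧ D (B.f i) = ax 0 (2 * v 0) ∧ (B.f i).length ≤ 2 * n ∧
      ∀ p ∈ pts (B.f i), ∀ k, |p k| ≤ 2 * (r : ℤ)) ∧
      Dom x L B (Real.exp (2 * E + Real.log (L + 1))) := by
  obtain ⟨B0, hB0, hdom⟩ := exists_law hx hE
  refine ⟨B0.conv (B0.map bl2_S.g), ?_, ?_⟩
  · rintro ⟨i, j⟩
    obtain ⟨h1, h2, h3, h4⟩ := hF _ (hB0 i)
    obtain ⟨g1, g2, g3, g4⟩ := hF _ (hB0 j)
    change Br (B0.f i ++ (B0.f j).map bl2_S.g) ∧ D (B0.f i ++ (B0.f j).map bl2_S.g) = _ ∧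
      (B0.f i ++ (B0.f j).map bl2_S.g).length ≤ _ ∧
      ∀ p ∈ pts (B0.f i ++ (B0.f j).map bl2_S.g), ∀ k, |p k| ≤ 2 * (r : ℤ)
    refine ⟨h1.append (g1.map bl2_S fun v => by rw [bl2_A, if_pos rfl]), ?_, ?_, ?_⟩
    · rw [D_append, Sy.D_map, h2, g2]
      funext k
      rw [Pi.add_apply, bl2_A, ax]
      by_cases hk : k = 0
      · subst hk
        rw [if_pos rfl, Pi.single_eq_same]
        ring
      · rw [if_neg hk, Pi.single_eq_of_ne hk]
        ring
    · rw [List.length_append, List.length_map]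
      omega
    · intro p hp k
      have hr : (0 : ℤ) ≤ r := Int.natCast_nonneg r
      rw [pts_append, mem_union, mem_tr] at hp
      rcases hp with hp | hp
      · have := h4 p hp k
        linarith
      · obtain ⟨a, b, hab, hD⟩ := mem_pts.1 hp
        obtain ⟨a', b', e1, e2, _⟩ := List.map_eq_append_iff.1 hab
        have e3 : D a' ∈ pts (B0.f j) := mem_pts.2 ⟨a', b', e1, rfl⟩
        have e4 := g4 _ e3 k
        have e5 : |(p - D (B0.f i)) k| ≤ r := by
          rw [← hD, ← e2, Sy.D_map, bl2_abs]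
          exact e4
        have e6 := h4 _ (D_mem_pts _) k
        rw [Pi.sub_apply] at e5
        have e7 := abs_add_le (p k - D (B0.f i) k) (D (B0.f i) k)
        rw [sub_add_cancel] at e7
        linarith
  · have h1 := Dom.conv hx.le (Real.exp_pos E).le (Real.exp_pos E).le (hdom L)
      (Dom.map hx.le (Real.exp_pos E).le (hdom L) bl2_S.ginj)
    have h2 : Real.exp E * Real.exp E * ((L : ℝ) + 1) = Real.exp (2 * E + Real.log (L + 1)) := by
      rw [Real.exp_add, Real.exp_log (by positivity), two_mul, Real.exp_add]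
    rwa [h2] at h1
-- END bl2

-- BEGIN bl3

-- END bl3

-- BEGIN bl4

-- END bl4

-- BEGIN bl5

/-- `Zt` is large at the scale `m ^ i` -/
theorem bl5_wh {μ : ℝ} (hμ : 1 ≤ μ) (hb : ∀ n, ((brs n).card : ℝ) ≤ μ ^ n) {d g m i : ℕ}
    (hgd : 2 * g ≤ d) (hm : 3 ≤ m) (hbad : Bad μ d g m) (hi : d - 2 * g + 2 ≤ i)
    (hie : i ≤ d - g + 1) : 1 ≤ Wh μ⁻¹ (m ^ i) (m ^ (i - (d - 2 * g + 2))) := by
  have h1 := V_mul hμ hb (m ^ (d - g + 1 - i)) (m ^ i)
  rw [← pow_add] at h1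
  have e1 : d - g + 1 - i + i = d - g + 1 := by omega
  rw [e1, V_eq, V_eq] at h1
  unfold Bad at hbad
  have hm' : (3 : ℝ) ≤ m := by exact_mod_cast hm
  have hm1 : (1 : ℝ) ≤ m := by linarith
  have h2 := source_one hμ hb (m ^ i) (m ^ (i - (d - 2 * g + 2)))
  push_cast at h1 h2 ⊢
  set k : ℝ := (m : ℝ) ^ (d - g + 1 - i) with hk
  set t : ℝ := (m : ℝ) ^ (i - (d - 2 * g + 2)) with ht
  have hk1 : 1 ≤ k := one_le_pow₀ hm1
  have ht1 : 1 ≤ t := one_le_pow₀ hm1
  have e2 : (m : ℝ) ^ g = k * (t * m) := by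
    rw [hk, ht, ← pow_succ, ← pow_add]
    congr 1
    omega
  rw [e2] at hbad
  have h3 : k * (t * m) < k * (1 + Zt μ⁻¹ (m ^ i)) := by linarith
  have h4 : t * m < 1 + Zt μ⁻¹ (m ^ i) := lt_of_mul_lt_mul_left h3 (by linarith)
  have h5 : t * 3 ≤ t * m := mul_le_mul_of_nonneg_left hm' (by linarith)
  linarith

-- END bl5

end Pool.Agent.SwX
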