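import Pool.Agent.SwP.Good

/-! Definitions for the exit argument (`c_n ≤ μ^n exp(C n^f)` for every `f > 1/3`). -/

namespace Pool.Agent.SwX

variable [Pool.Agent.SwP.Dim]

open Finset Filter
open scoped Classical
open Pool.Agent.SwP

/-- the point at distance `t` on the axis of the coordinate `c` -/
def ax (c : Ix) (t : ℤ) : Pt := Pi.single c t

/-- the points of `A` seen from the end of `A` -/
noncomputable def bk (A : Word) : Finset Pt := tr (- D A) (pts A)

/-- the points at sup distance less than `ρ` from `X` -/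
noncomputable def nb (X : Finset Pt) (ρ : ℕ) : Finset Pt :=
  X.biUnion fun p => Fintype.piFinset fun k => Ioo (p k - (ρ : ℤ)) (p k + (ρ : ℤ))

/-- `y` lies ahead: its largest coordinate is positive and the other ones are not very negative -/
def Ahd (y : Pt) : Prop := ∃ i, 0 < y i ∧ ∀ k, y k ≤ y i ∧ - y i ≤ 4 * y k

/-- a straight block of scale `r` in the direction of the coordinate `0` -/
structure Blk (x : ℝ) (L r h l : ℕ) (J : ℝ) (B : Law) : Prop where
  br : ∀ i, Br (B.f i)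
  disp : ∀ i, D (B.f i) = ax 0 h
  len : ∀ i, (B.f i).length ≤ l
  box : ∀ i, ∀ p ∈ pts (B.f i), ∀ k, |p k| ≤ 8 * (r : ℤ)
  dom : Dom x L B (Real.exp J)
  lo : r ≤ h
  hi : h ≤ 4 * r

/-- the position `s` on the segment of length `n` is free at scale `ρ` -/
def Free (X : Finset Pt) (n s ρ : ℕ) : Prop :=
  ρ ≤ s ∧ s + ρ ≤ n ∧ ∀ p ∈ X, ∃ k, (ρ : ℤ) ≤ |p k - ax 0 s k|

/-- the cost of a segment of length `n`, where `a i` is the cost per unit length of blocks of
scale `m ^ i` and `i ≤ I` -/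
noncomputable def sc (X : Finset Pt) (n m I : ℕ) (a : ℕ → ℝ) : ℝ :=
  ∑ s ∈ range n, ∑ i ∈ range (I + 1),
    if i = I ∨ ¬ Free X n s (200 * m ^ (i + 1)) then a i else 0

/-- a segment of length `n` in the direction `0` with obstacles `X` -/
structure Seg (X : Finset Pt) (n : ℕ) (w : Word) : Prop where
  br : Br w
  disp : D w = ax 0 n
  cone : ∀ p ∈ pts w, ∃ t : ℕ, t ≤ n ∧ ∀ k, 12 * |p k - ax 0 t k| ≤ (t : ℤ) ∧
    12 * |p k - ax 0 t k| ≤ (n : ℤ) - t
  hit : ∀ p ∈ pts w, p ∈ X → ∃ t : ℕ, t ≤ n ∧ p = ax 0 t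

/-- a law on segments for all obstacles, with costs `a` and lengths `b` per unit length -/
def SegLaw (x : ℝ) (L m I : ℕ) (a b : ℕ → ℝ) : Prop :=
  ∀ (X : Finset Pt) (n : ℕ), ∃ S : Law, (∀ i, Seg X n (S.f i)) ∧
    (∀ i, ((S.f i).length : ℝ) ≤ sc X n m I b) ∧ Dom x L S (Real.exp (sc X n m I a))

/-- direction of the segment `j` of the staircase: `1, 2, …, k + 1, 0, 1, 2, …` -/
def dr (j : ℕ) : Ix := ⟨(j + 1) % (Dim.k + 2), Nat.mod_lt _ (by omega)⟩

/-- corners of the staircase with lengths `ω` -/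
def cor (ω : ℕ → ℕ) (j : ℕ) : Pt := ∑ i ∈ range j, ax (dr i) (ω i)

/-- the obstacles seen from the corner `j`, turned so that the direction `dr j` becomes `0` -/
noncomputable def obs (X : Finset Pt) (ω : ℕ → ℕ) (j : ℕ) : Finset Pt :=
  (tr (- cor ω j) X).image (perm (Equiv.swap 0 (dr j))).A

/-- an exit word: self-avoiding, from `0` to the corner `j`, behind its end, with obstacles only
on the staircase itself -/
structure Gw (X : Finset Pt) (ω : ℕ → ℕ) (j : ℕ) (w : Word) : Prop where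
  saw : saw w
  disp : D w = cor ω j
  ahd : ∀ p ∈ pts w, p ≠ D w → Ahd (D w - p)
  hit : ∀ p ∈ pts w, p ∈ X → ∃ i < j, ∃ s : ℕ, s ≤ ω i ∧ p = cor ω i + ax (dr i) s

/-- the set of all lengths: `ω j` in `[R j, 2 R j)` for `j < K`, zero for `j ≥ K` -/
noncomputable def Om (K : ℕ) (R : ℕ → ℕ) : Finset (ℕ → ℕ) :=
  (Fintype.piFinset fun j : Fin K => Ico (R j) (2 * R j)).image
    fun v i => if h : i < K then v ⟨i, h⟩ else 0

/-- the number of positions on the segment `j` at distance less than `ρ` from `X` -/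
noncomputable def cnt (X : Finset Pt) (ω : ℕ → ℕ) (j ρ : ℕ) : ℕ :=
  ((range (ω j)).filter fun s : ℕ =>
    ∃ p ∈ X, ∀ k, |p k - (cor ω j + ax (dr j) (s : ℤ)) k| < (ρ : ℤ)).card

end Pool.Agent.SwX
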