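import Pool.Agent.SwX.Path
import Pool.Agent.SwX.Avg

/-! ROW A7. Joining two good walks. -/

namespace Pool.Agent.SwX

variable [Pool.Agent.SwP.Dim]
set_option maxHeartbeats 400000

open Finset Filter
open scoped Classical
open Pool.Agent.SwP

-- BEGIN jo1
theorem jo1_not_both {y : Pt} (h1 : Ahd y) (h2 : Ahd (-y)) : False := by
  obtain ⟨i, hi, hk⟩ := h1
  obtain ⟨j, hj, hl⟩ := h2
  have e1 := (hk j).2
  have e2 := (hl i).2
  have e3 := (hl i).1
  simp only [Pi.neg_apply] at *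
  omega

theorem jo1_mem_rev {w : Word} {p : Pt} : p ∈ pts w.reverse ↔ D w - p ∈ pts w := by
  constructor
  · intro h
    obtain ⟨a, b, hab, rfl⟩ := mem_pts.1 h
    have h1 : w = b.reverse ++ a.reverse := by
      have := congrArg List.reverse hab
      rwa [List.reverse_reverse, List.reverse_append] at this
    refine mem_pts.2 ⟨b.reverse, a.reverse, h1, ?_⟩
    rw [h1, D_append, D_reverse, D_reverse]
    abel
  · intro h
    obtain ⟨a, b, hab, hD⟩ := mem_pts.1 h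
    refine mem_pts.2 ⟨b.reverse, a.reverse, by rw [hab, List.reverse_append], ?_⟩
    rw [D_reverse]
    have h2 : D w = D a + D b := by rw [hab, D_append]
    rw [hD] at h2
    calc D b = (D w - p + D b) - (D w - p) := by abel
      _ = p := by rw [← h2]; abel

theorem jo1_saw_rev {w : Word} (h : saw w) : saw w.reverse := by
  intro a u b hab hne hcon
  have h1 : w = b.reverse ++ (u.reverse ++ a.reverse) := by
    have := congrArg List.reverse hab
    rw [List.reverse_reverse, List.reverse_append, List.reverse_append, List.append_assoc] at this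
    exact this
  refine h _ _ _ h1 ?_ ?_
  · intro h0
    exact hne (List.reverse_eq_nil_iff.1 h0)
  · rw [D_reverse]; exact hcon

/-- repetitions of two walks joined by two exit words -/
theorem rep_join {A B z₁ z₂ : Word} (hA : saw A) (hB : saw B) (h₁ : saw z₁) (h₂ : saw z₂)
    (a₁ : ∀ p ∈ pts z₁, p ≠ D z₁ → Ahd (D z₁ - p))
    (a₂ : ∀ p ∈ pts z₂, p ≠ D z₂ → Ahd (D z₂ - p)) :
    rep (A ++ ((z₁ ++ z₂.reverse) ++ B)) ≤ (pts z₁ ∩ bk A).card + (pts z₂ ∩ bk B.reverse).card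
      + (tr (D z₁) (pts z₂.reverse) ∩ bk A).card
      + (tr (D z₂ + D z₁) (pts B) ∩ pts z₁).card
      + (tr (D z₂ + D z₁) (pts B) ∩ bk A).card := by
  set w := z₁ ++ z₂.reverse with hw
  have hDw : D w = D z₂ + D z₁ := by rw [hw, D_append, D_reverse, add_comm]
  have r1 := rep_append A (w ++ B)
  have r2 := rep_append w B
  have r3 := rep_append z₁ z₂.reverse
  rw [hA.rep] at r1
  rw [hB.rep] at r2
  rw [h₁.rep, (jo1_saw_rev h₂).rep, ← hw] at r3
  have c3 : ((pts z₁).erase (D z₁) ∩ tr (D z₁) (pts z₂.reverse)) = ∅ := by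
    rw [Finset.eq_empty_iff_forall_notMem]
    intro p hp
    rw [mem_inter, mem_erase, mem_tr, jo1_mem_rev] at hp
    obtain ⟨⟨hp1, hp2⟩, hp3⟩ := hp
    have e1 := a₁ p hp2 hp1
    have e2 := a₂ _ hp3 (by
      intro h0
      apply hp1
      have : p - D z₁ = 0 := by
        have := congrArg (fun v => D z₂ - v) h0
        simpa using this
      exact sub_eq_zero.1 this)
    have e3 : D z₂ - (D z₂ - (p - D z₁)) = -(D z₁ - p) := by abel
    rw [e3] at e2
    exact jo1_not_both e1 e2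
  rw [c3, card_empty] at r3
  have c2 : ((pts w).erase (D w) ∩ tr (D w) (pts B)).card ≤
      (tr (D z₂ + D z₁) (pts B) ∩ pts z₁).card + (pts z₂ ∩ bk B.reverse).card := by
    have hsub : (pts w).erase (D w) ∩ tr (D w) (pts B) ⊆
        (tr (D z₂ + D z₁) (pts B) ∩ pts z₁) ∪
          (pts z₂ ∩ bk B.reverse).image (fun q => D w - q) := by
      intro p hp
      rw [mem_inter, mem_erase, mem_tr] at hp
      obtain ⟨⟨hp1, hp2⟩, hp3⟩ := hp
      rw [hw, pts_append, mem_union] at hp2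
      rw [mem_union]
      rcases hp2 with h | h
      · left
        rw [mem_inter, mem_tr, ← hDw]
        exact ⟨hp3, h⟩
      · right
        rw [mem_tr, jo1_mem_rev] at h
        refine mem_image.2 ⟨D w - p, ?_, by abel⟩
        rw [mem_inter]
        refine ⟨?_, ?_⟩
        · have : D w - p = D z₂ - (p - D z₁) := by rw [hDw]; abel
          rw [this]; exact h
        · unfold bk
          rw [mem_tr, jo1_mem_rev, D_reverse]
          have : D B - (D w - p - -D B) = p - D w := by abel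
          rw [this]; exact hp3
    exact (card_le_card hsub).trans ((card_union_le _ _).trans
      (Nat.add_le_add_left card_image_le _))
  have c1 : ((pts A).erase (D A) ∩ tr (D A) (pts (w ++ B))).card ≤
      (pts z₁ ∩ bk A).card + (tr (D z₁) (pts z₂.reverse) ∩ bk A).card
        + (tr (D z₂ + D z₁) (pts B) ∩ bk A).card := by
    have hsub : (pts A).erase (D A) ∩ tr (D A) (pts (w ++ B)) ⊆
        ((pts z₁ ∩ bk A) ∪ (tr (D z₁) (pts z₂.reverse) ∩ bk A) ∪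
          (tr (D z₂ + D z₁) (pts B) ∩ bk A)).image (fun q => D A + q) := by
      intro p hp
      rw [mem_inter, mem_erase, mem_tr] at hp
      obtain ⟨⟨hp1, hp2⟩, hp3⟩ := hp
      refine mem_image.2 ⟨p - D A, ?_, by abel⟩
      have hb : p - D A ∈ bk A := by
        unfold bk
        rw [mem_tr]
        have : p - D A - -D A = p := by abel
        rw [this]; exact hp2
      rw [pts_append, mem_union, hw, pts_append, mem_union, ← hw, hDw] at hp3
      simp only [mem_union, mem_inter]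
      rcases hp3 with (h | h) | h
      · exact Or.inl (Or.inl ⟨h, hb⟩)
      · exact Or.inl (Or.inr ⟨h, hb⟩)
      · exact Or.inr ⟨h, hb⟩
    refine (card_le_card hsub).trans (card_image_le.trans ?_)
    exact (card_union_le _ _).trans (Nat.add_le_add_right (card_union_le _ _) _)
  omega
-- END jo1

-- BEGIN jo2
theorem jo2_half {W : Law} {A B : Word} {hh : ℕ}
    (hW : W.E (fun w => (rep (A ++ (w ++ B)) : ℝ)) ≤ ((hh : ℝ) + 1) / 2) :
    1 / 2 ≤ W.E (fun w => if rep (A ++ (w ++ B)) ≤ hh then (1 : ℝ) else 0) := by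
  have h2 : 1 ≤ W.E (fun w => (if rep (A ++ (w ++ B)) ≤ hh then (1 : ℝ) else 0)
      + ((hh : ℝ) + 1)⁻¹ * (rep (A ++ (w ++ B)) : ℝ)) := by
    refine W.le_E fun i => ?_
    split_ifs with h3
    · have : (0 : ℝ) ≤ ((hh : ℝ) + 1)⁻¹ * (rep (A ++ (W.f i ++ B)) : ℝ) := by positivity
      linarith
    · rw [zero_add]
      push Not at h3
      have h4 : (hh : ℝ) + 1 ≤ rep (A ++ (W.f i ++ B)) := by exact_mod_cast h3
      rw [inv_mul_eq_div, le_div_iff₀ (by positivity), one_mul]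
      exact h4
  rw [Law.E_add, Law.E_smul] at h2
  have h5 : ((hh : ℝ) + 1)⁻¹ * W.E (fun w => (rep (A ++ (w ++ B)) : ℝ)) ≤ 1 / 2 := by
    rw [inv_mul_eq_div, div_le_iff₀ (by positivity)]
    linarith
  linarith

/-- the join inequality for families of walks (as `SwP.join`, the law depends on the
pair) -/
theorem join_pairs {x : ℝ} (hx : 0 < x) {L k hh : ℕ} {G H : Finset Word} (hG : G ⊆ walks k)
    (hH : H ⊆ walks k) {M : ℝ} (hM : 0 ≤ M) (hW : ∀ A ∈ G, ∀ B ∈ H, ∃ W : Law,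
      (∀ i, (W.f i).length ≤ L) ∧ Dom x L W M ∧
      W.E (fun w => (rep (A ++ (w ++ B)) : ℝ)) ≤ ((hh : ℝ) + 1) / 2) :
    ((G.card : ℝ) * x ^ k) * ((H.card : ℝ) * x ^ k) ≤ 2 * M * TT x hh (2 * k + L) := by
  obtain ⟨S, hS⟩ : ∃ S : Finset (Word × Word), S = G ×ˢ H := ⟨_, rfl⟩
  set φ : Word × Word → Word → ℝ := fun q w => if w.length ≤ L then
    (if rep (q.1 ++ (w ++ q.2)) ≤ hh then (1 : ℝ) else 0) else 0 with hφ
  have h0 : ∀ q w, 0 ≤ φ q w := by
    intro q w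
    simp only [hφ]
    split_ifs <;> norm_num
  have hL : ∀ q w, L < w.length → φ q w = 0 := by
    intro q w hw
    simp only [hφ]
    rw [if_neg (by omega)]
  have h1 : ∀ q ∈ S, 1 / 2 ≤ M * ∑ w ∈ wle L, x ^ w.length * φ q w := by
    intro q hq
    rw [hS, mem_product] at hq
    obtain ⟨W, w1, w2, w3⟩ := hW q.1 hq.1 q.2 hq.2
    have h2 : W.E (φ q) = W.E (fun w => if rep (q.1 ++ (w ++ q.2)) ≤ hh then (1 : ℝ) else 0) := by
      unfold Law.E
      refine sum_congr rfl fun i _ => ?_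
      simp only [hφ]
      rw [if_pos (w1 i)]
    exact (jo2_half w3).trans (h2.ge.trans (w2 (φ q) (h0 q) (hL q)))
  have h4 : x ^ (2 * k) * ∑ q ∈ S, ∑ w ∈ wle L, x ^ w.length * φ q w ≤ TT x hh (2 * k + L) := by
    have e1 : x ^ (2 * k) * ∑ q ∈ S, ∑ w ∈ wle L, x ^ w.length * φ q w
        = ∑ p ∈ (S ×ˢ wle L).filter (fun p : (Word × Word) × Word =>
          rep (p.1.1 ++ (p.2 ++ p.1.2)) ≤ hh), x ^ (2 * k + p.2.length) := by
      rw [sum_filter, sum_product, mul_sum]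
      refine Finset.sum_congr rfl fun q _ => ?_
      rw [mul_sum]
      refine Finset.sum_congr rfl fun w hw => ?_
      rw [mem_wle] at hw
      simp only [hφ]
      rw [if_pos hw]
      split_ifs
      · rw [pow_add]; ring
      · ring
    rw [e1]
    unfold TT
    refine sum_le_of_inj (fun p : (Word × Word) × Word => p.1.1 ++ (p.2 ++ p.1.2)) ?_ ?_ ?_ ?_
    · rintro ⟨⟨A, B⟩, w⟩ hp
      rw [mem_filter, mem_product, hS, mem_product, mem_wle] at hp
      rw [mem_filter, mem_wle]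
      refine ⟨?_, hp.2⟩
      have a1 := hp.1.2
      have a2 := (mem_walks.1 (hG hp.1.1.1)).1
      have a3 := (mem_walks.1 (hH hp.1.1.2)).1
      simp only at a1 a2 a3 ⊢
      rw [List.length_append, List.length_append]
      omega
    · rintro ⟨⟨A, B⟩, w⟩ hp ⟨⟨A', B'⟩, w'⟩ hp' heq
      rw [mem_coe, mem_filter, mem_product, hS, mem_product] at hp hp'
      simp only at heq
      have a2 : A.length = k := (mem_walks.1 (hG hp.1.1.1)).1
      have a3 : B.length = k := (mem_walks.1 (hH hp.1.1.2)).1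
      have a2' : A'.length = k := (mem_walks.1 (hG hp'.1.1.1)).1
      have a3' : B'.length = k := (mem_walks.1 (hH hp'.1.1.2)).1
      obtain ⟨e1, e2⟩ := List.append_inj heq (by omega)
      obtain ⟨e3, e4⟩ := List.append_inj' e2 (by omega)
      rw [e1, e3, e4]
    · rintro ⟨⟨A, B⟩, w⟩ hp
      rw [mem_filter, mem_product, hS, mem_product] at hp
      have a2 : A.length = k := (mem_walks.1 (hG hp.1.1.1)).1
      have a3 : B.length = k := (mem_walks.1 (hH hp.1.1.2)).1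
      apply le_of_eq
      congr 1
      rw [List.length_append, List.length_append, a2, a3]
      simp only
      ring
    · intro w _
      exact pow_nonneg hx.le _
  have hx2 : 0 ≤ x ^ (2 * k) := pow_nonneg hx.le _
  have h5 : (G.card : ℝ) * H.card * (1 / 2)
      ≤ M * ∑ q ∈ S, ∑ w ∈ wle L, x ^ w.length * φ q w := by
    rw [mul_sum]
    calc (G.card : ℝ) * H.card * (1 / 2) = ∑ _q ∈ S, (1 / 2 : ℝ) := by
          rw [sum_const, hS, card_product, nsmul_eq_mul]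
          push_cast
          ring
      _ ≤ _ := sum_le_sum h1
  calc ((G.card : ℝ) * x ^ k) * ((H.card : ℝ) * x ^ k)
      = 2 * (x ^ (2 * k) * ((G.card : ℝ) * H.card * (1 / 2))) := by
        rw [two_mul k, pow_add]; ring
    _ ≤ 2 * (x ^ (2 * k) * (M * ∑ q ∈ S, ∑ w ∈ wle L, x ^ w.length * φ q w)) :=
        mul_le_mul_of_nonneg_left (mul_le_mul_of_nonneg_left h5 hx2) (by norm_num)
    _ = 2 * M * (x ^ (2 * k) * ∑ q ∈ S, ∑ w ∈ wle L, x ^ w.length * φ q w) := by ring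
    _ ≤ _ := mul_le_mul_of_nonneg_left h4 (by positivity)
-- END jo2

-- BEGIN jo3
/-- reversed words -/
noncomputable def jo3_rev (P : Law) : Law where
  ι := P.ι
  ft := P.ft
  p := P.p
  f := fun i => (P.f i).reverse
  nn := P.nn
  one := P.one

theorem jo3_dom {x : ℝ} (hx : 0 ≤ x) {L : ℕ} {P : Law} {M : ℝ} (hM : 0 ≤ M) (hP : Dom x L P M) :
    Dom x L (jo3_rev P) M := by
  intro φ h0 hL
  have h1 := hP (fun w => φ w.reverse) (fun w => h0 _) (fun w hw => hL _ (by simpa using hw))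
  refine (le_of_eq ?_).trans (h1.trans (mul_le_mul_of_nonneg_left ?_ hM))
  · rfl
  · refine sum_le_of_inj (fun w : Word => w.reverse) ?_ ?_ ?_ ?_
    · intro w hw
      rw [mem_wle] at hw ⊢
      simpa using hw
    · exact List.reverse_injective.injOn
    · intro w _
      simp
    · intro w _
      exact mul_nonneg (pow_nonneg hx _) (h0 _)

/-- one point of a family below its average bound -/
theorem jo3_hits {K : ℕ} {R : ℕ → ℕ} (hR : ∀ j, 1 ≤ R j) (hK : dd ≤ K) {G : Finset (ℕ → ℕ)}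
    (hG : G ⊆ Om K R) (c₁ : (Om K R).card ≤ 4 * G.card) {L : ℕ} (c : Pt) {S X : Finset Pt}
    (hS : S.card ≤ L + 1) (hX : X.card ≤ L + 1) :
    ∑ ω ∈ G, ((tr (cor ω K + c) S ∩ X).card : ℝ) ≤
      G.card * (4 * ((L : ℝ) + 1) ^ 2 / (∏ i ∈ Ico (K - dd) K, (R i : ℝ))) := by
  have hRR : (0 : ℝ) < ∏ i ∈ Ico (K - dd) K, (R i : ℝ) :=
    prod_pos fun i _ => by exact_mod_cast hR i
  have h1 := sum_hits (R := R) hK le_rfl c S X
  have h2 : ∑ ω ∈ G, ((tr (cor ω K + c) S ∩ X).card : ℝ)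
      ≤ ∑ ω ∈ Om K R, ((tr (cor ω K + c) S ∩ X).card : ℝ) :=
    sum_le_sum_of_subset_of_nonneg hG fun _ _ _ => Nat.cast_nonneg _
  have h3 : ((Om K R).card : ℝ) ≤ 4 * G.card := by exact_mod_cast c₁
  have h4 : (S.card : ℝ) ≤ L + 1 := by exact_mod_cast hS
  have h5 : (X.card : ℝ) ≤ L + 1 := by exact_mod_cast hX
  have h6 : (S.card : ℝ) * X.card ≤ ((L : ℝ) + 1) ^ 2 := by
    rw [pow_two]
    exact mul_le_mul h4 h5 (Nat.cast_nonneg _) (by positivity)
  rw [← mul_div_assoc, le_div_iff₀ hRR]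
  calc (∑ ω ∈ G, ((tr (cor ω K + c) S ∩ X).card : ℝ)) * _
      ≤ (∑ ω ∈ Om K R, ((tr (cor ω K + c) S ∩ X).card : ℝ)) * _ :=
        mul_le_mul_of_nonneg_right h2 hRR.le
    _ ≤ ((Om K R).card : ℝ) * (S.card * X.card) := h1
    _ ≤ (4 * (G.card : ℝ)) * ((L : ℝ) + 1) ^ 2 :=
        mul_le_mul h3 h6 (by positivity) (by positivity)
    _ = _ := by ring

/-- **Joint.** Choose one pair `(ω₁, ω₂)` of `G₁ × G₂` with the smallest expected number of cross
repetitions (`sum_hits`, `rep_join`); `W = Z₁.conv (reverse of Z₂)`. -/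
theorem joint {x : ℝ} (hx : 0 < x) {L K k T η : ℕ} {R : ℕ → ℕ} (hR : ∀ j, 1 ≤ R j) (hK : dd ≤ K)
    {A B : Word} (hA : A ∈ walks k) (hB : B ∈ walks k) {G₁ G₂ : Finset (ℕ → ℕ)}
    (hG₁ : G₁ ⊆ Om K R) (hG₂ : G₂ ⊆ Om K R) (c₁ : (Om K R).card ≤ 4 * G₁.card)
    (c₂ : (Om K R).card ≤ 4 * G₂.card) {M : ℝ} (hM : 0 ≤ M)
    (e₁ : ∀ ω ∈ G₁, ∃ Z : Law, (∀ i, Gw (bk A) ω K (Z.f i)) ∧ (∀ i, (Z.f i).length ≤ T) ∧
      (∀ i, (pts (Z.f i) ∩ bk A).card ≤ η) ∧ Dom x L Z M)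
    (e₂ : ∀ ω ∈ G₂, ∃ Z : Law, (∀ i, Gw (bk B.reverse) ω K (Z.f i)) ∧
      (∀ i, (Z.f i).length ≤ T) ∧ (∀ i, (pts (Z.f i) ∩ bk B.reverse).card ≤ η) ∧ Dom x L Z M)
    (hk : k ≤ L) (hT : T ≤ L) :
    ∃ W : Law, (∀ i, (W.f i).length ≤ 2 * T) ∧ Dom x L W (M * M * (L + 1)) ∧
      W.E (fun w => (rep (A ++ (w ++ B)) : ℝ)) ≤ 2 * η +
        12 * ((L : ℝ) + 1) ^ 2 / (∏ i ∈ Ico (K - dd) K, (R i : ℝ)) := by
  have : Nonempty Law := ⟨Law.dirac []⟩
  choose! Z₁ p₁ q₁ r₁ s₁ using e₁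
  choose! Z₂ p₂ q₂ r₂ s₂ using e₂
  obtain ⟨lA, sA⟩ := mem_walks.1 hA
  obtain ⟨lB, sB⟩ := mem_walks.1 hB
  set RR : ℝ := ∏ i ∈ Ico (K - dd) K, (R i : ℝ) with hRR
  set b : ℝ := 4 * ((L : ℝ) + 1) ^ 2 / RR with hb
  have cA : (bk A).card ≤ L + 1 := (card_bk_le A).trans (by omega)
  have cB : (pts B).card ≤ L + 1 := (card_pts_le B).trans (by omega)
  have z₁c : ∀ ω ∈ G₁, ∀ i, (pts ((Z₁ ω).f i)).card ≤ L + 1 := fun ω hω i =>
    (card_pts_le _).trans (by have := q₁ ω hω i; omega)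
  have z₂c : ∀ ω ∈ G₂, ∀ i, (pts ((Z₂ ω).f i).reverse).card ≤ L + 1 := fun ω hω i =>
    (card_pts_le _).trans (by have := q₂ ω hω i; rw [List.length_reverse]; omega)
  -- the three cross terms
  let t₁ : (ℕ → ℕ) → Word → ℝ := fun ω v => ((tr (cor ω K) (pts v.reverse) ∩ bk A).card : ℝ)
  let t₂ : (ℕ → ℕ) → (ℕ → ℕ) → Word → ℝ := fun ω ω' u =>
    ((tr (cor ω' K + cor ω K) (pts B) ∩ pts u).card : ℝ)
  let t₃ : (ℕ → ℕ) → (ℕ → ℕ) → ℝ := fun ω ω' =>
    ((tr (cor ω' K + cor ω K) (pts B) ∩ bk A).card : ℝ)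
  let F : (ℕ → ℕ) × (ℕ → ℕ) → ℝ := fun q =>
    (Z₂ q.2).E (t₁ q.1) + (Z₁ q.1).E (t₂ q.1 q.2) + t₃ q.1 q.2
  have hb0 : 0 ≤ b := by
    have : 0 < RR := prod_pos fun i _ => by exact_mod_cast hR i
    positivity
  have T₁ : ∑ q ∈ G₁ ×ˢ G₂, (Z₂ q.2).E (t₁ q.1) ≤ (G₁.card : ℝ) * G₂.card * b := by
    rw [sum_product_right]
    calc ∑ ω' ∈ G₂, ∑ ω ∈ G₁, (Z₂ ω').E (t₁ ω)
        ≤ ∑ ω' ∈ G₂, (G₁.card : ℝ) * b := by
          refine sum_le_sum fun ω' hω' => ?_
          rw [← Law.E_sum]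
          refine Law.E_le _ fun i => ?_
          have := jo3_hits hR hK hG₁ c₁ (0 : Pt) (z₂c ω' hω' i) cA
          simpa only [add_zero] using this
      _ = _ := by rw [sum_const, nsmul_eq_mul]; ring
  have T₂ : ∑ q ∈ G₁ ×ˢ G₂, (Z₁ q.1).E (t₂ q.1 q.2) ≤ (G₁.card : ℝ) * G₂.card * b := by
    rw [sum_product]
    calc ∑ ω ∈ G₁, ∑ ω' ∈ G₂, (Z₁ ω).E (t₂ ω ω')
        ≤ ∑ ω ∈ G₁, (G₂.card : ℝ) * b := by
          refine sum_le_sum fun ω hω => ?_
          rw [← Law.E_sum]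
          refine Law.E_le _ fun i => ?_
          exact jo3_hits hR hK hG₂ c₂ (cor ω K) cB (z₁c ω hω i)
      _ = _ := by rw [sum_const, nsmul_eq_mul]; ring
  have T₃ : ∑ q ∈ G₁ ×ˢ G₂, t₃ q.1 q.2 ≤ (G₁.card : ℝ) * G₂.card * b := by
    rw [sum_product]
    calc ∑ ω ∈ G₁, ∑ ω' ∈ G₂, t₃ ω ω'
        ≤ ∑ ω ∈ G₁, (G₂.card : ℝ) * b := by
          refine sum_le_sum fun ω _ => ?_
          exact jo3_hits hR hK hG₂ c₂ (cor ω K) cB cA
      _ = _ := by rw [sum_const, nsmul_eq_mul]; ring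
  have hO : 0 < (Om K R).card := Om_pos hR
  have n₁ : G₁.Nonempty := by
    rw [← card_pos]; omega
  have n₂ : G₂.Nonempty := by
    rw [← card_pos]; omega
  obtain ⟨⟨ω, ω'⟩, hq, hF⟩ := exists_le_of_sum_le (f := F) (g := fun _ => 3 * b)
    (n₁.product n₂) (by
      simp only [F, sum_add_distrib, sum_const, card_product, nsmul_eq_mul, Nat.cast_mul]
      linarith)
  obtain ⟨hω, hω'⟩ := mem_product.1 hq
  refine ⟨(Z₁ ω).conv (jo3_rev (Z₂ ω')), ?_, ?_, ?_⟩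
  · rintro ⟨i, i'⟩
    change ((Z₁ ω).f i ++ ((Z₂ ω').f i').reverse).length ≤ 2 * T
    rw [List.length_append, List.length_reverse]
    have h1 := q₁ ω hω i
    have h2 := q₂ ω' hω' i'
    omega
  · exact Dom.conv hx.le hM hM (s₁ ω hω) (jo3_dom hx.le hM (s₂ ω' hω'))
  · rw [Law.E_conv]
    have key : ∀ i i', (rep (A ++ (((Z₁ ω).f i ++ ((Z₂ ω').f i').reverse) ++ B)) : ℝ) ≤
        2 * η + (t₁ ω ((Z₂ ω').f i') + t₂ ω ω' ((Z₁ ω).f i) + t₃ ω ω') := by
      intro i i'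
      have g₁ := p₁ ω hω i
      have g₂ := p₂ ω' hω' i'
      have h1 := rep_join sA sB g₁.saw g₂.saw g₁.ahd g₂.ahd
      rw [g₁.disp, g₂.disp] at h1
      have h2 := r₁ ω hω i
      have h3 := r₂ ω' hω' i'
      have h4 : rep (A ++ (((Z₁ ω).f i ++ ((Z₂ ω').f i').reverse) ++ B)) ≤ 2 * η +
          ((tr (cor ω K) (pts ((Z₂ ω').f i').reverse) ∩ bk A).card +
          (tr (cor ω' K + cor ω K) (pts B) ∩ pts ((Z₁ ω).f i)).card +
          (tr (cor ω' K + cor ω K) (pts B) ∩ bk A).card) := by omega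
      have h5 : ((rep (A ++ (((Z₁ ω).f i ++ ((Z₂ ω').f i').reverse) ++ B)) : ℕ) : ℝ) ≤ ((2 * η +
          ((tr (cor ω K) (pts ((Z₂ ω').f i').reverse) ∩ bk A).card +
          (tr (cor ω' K + cor ω K) (pts B) ∩ pts ((Z₁ ω).f i)).card +
          (tr (cor ω' K + cor ω K) (pts B) ∩ bk A).card) : ℕ) : ℝ) := by exact_mod_cast h4
      push_cast at h5
      exact h5
    have h6 : (Z₁ ω).E (fun u => (jo3_rev (Z₂ ω')).E (fun v => (rep (A ++ ((u ++ v) ++ B)) : ℝ)))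
        ≤ (Z₁ ω).E (fun u => 2 * η + ((Z₂ ω').E (t₁ ω) + t₂ ω ω' u + t₃ ω ω')) := by
      refine Law.E_mono _ fun i => ?_
      have h7 : (jo3_rev (Z₂ ω')).E (fun v => (rep (A ++ (((Z₁ ω).f i ++ v) ++ B)) : ℝ))
          = (Z₂ ω').E (fun v => (rep (A ++ (((Z₁ ω).f i ++ v.reverse) ++ B)) : ℝ)) := rfl
      rw [h7]
      have h8 := Law.E_mono (Z₂ ω') (φ := fun v =>
        (rep (A ++ (((Z₁ ω).f i ++ v.reverse) ++ B)) : ℝ))
        (ψ := fun v => (2 * η + t₂ ω ω' ((Z₁ ω).f i) + t₃ ω ω') + t₁ ω v) (fun i' => by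
          have := key i i'
          linarith)
      rw [Law.E_add, Law.E_const] at h8
      linarith
    refine h6.trans ?_
    have h9 : (Z₁ ω).E (fun u => 2 * η + ((Z₂ ω').E (t₁ ω) + t₂ ω ω' u + t₃ ω ω'))
        = (2 * η + (Z₂ ω').E (t₁ ω) + t₃ ω ω') + (Z₁ ω).E (t₂ ω ω') := by
      have : (fun u => 2 * (η : ℝ) + ((Z₂ ω').E (t₁ ω) + t₂ ω ω' u + t₃ ω ω'))
          = fun u => (2 * (η : ℝ) + (Z₂ ω').E (t₁ ω) + t₃ ω ω') + t₂ ω ω' u := by
        funext u; ring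
      rw [this, Law.E_add, Law.E_const]
    rw [h9]
    have h10 : 12 * ((L : ℝ) + 1) ^ 2 / RR = 3 * b := by rw [hb]; ring
    rw [h10]
    have h11 : (Z₂ ω').E (t₁ ω) + (Z₁ ω).E (t₂ ω ω') + t₃ ω ω' ≤ 3 * b := hF
    linarith
-- END jo3

end Pool.Agent.SwX
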