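import Pool.Agent.SwX.Num
import Pool.Agent.SwX.JoinEx
import Pool.Agent.SwP.Main

/-! ROW A9. The recursion and the conclusion. -/

namespace Pool.Agent.SwX

variable [Pool.Agent.SwP.Dim]
set_option maxHeartbeats 1000000

open Finset Filter
open scoped Classical
open Pool.Agent.SwP

-- BEGIN fi1
theorem fi1_saw_reverse {w : Word} (h : saw w) : saw w.reverse := by
  have h1 : saw (w.map ineg.g) := saw.map ineg h
  have h2 := saw.rv h1
  have h3 : rv (w.map ineg.g) = w.reverse := by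
    unfold rv
    rw [List.map_map]
    have : (ineg.g ∘ ineg.g) = fun s : Step => s := by
      funext s
      obtain ⟨a, b⟩ := s
      simp [ineg]
    rw [this]
    simp
  rwa [h3] at h2

theorem fi1_card_reverse (k : ℕ) (P : Word → Prop) :
    ((walks k).filter (fun B => P B.reverse)).card = ((walks k).filter P).card := by
  refine card_bij (fun w _ => w.reverse) ?_ ?_ ?_
  · intro w hw
    rw [mem_filter, mem_walks] at hw ⊢
    exact ⟨⟨by rw [List.length_reverse]; exact hw.1.1, fi1_saw_reverse hw.1.2⟩, hw.2⟩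
  · intro a _ b _ hab
    exact List.reverse_injective hab
  · intro w hw
    rw [mem_filter, mem_walks] at hw
    refine ⟨w.reverse, ?_, List.reverse_reverse w⟩
    rw [mem_filter, mem_walks]
    exact ⟨⟨by rw [List.length_reverse]; exact hw.1.1, fi1_saw_reverse hw.1.2⟩,
      by rw [List.reverse_reverse]; exact hw.2⟩

theorem fi1_log_prod {c A B F : ℝ} {h : ℕ} (hc : 0 < c) (hA : 0 < A) (hB : 0 < B) :
    Real.log (c * (A ^ h * (B * Real.exp F)))
      = Real.log c + (h * Real.log A + (Real.log B + F)) := log_prod hc hA hB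

-- END fi1

-- BEGIN fi2

theorem fi2_rec_N {μ : ℝ} {d g : ℕ} (hd : 1 ≤ d) {C : ℝ} (hC : 0 ≤ C)
    (h1 : ∀ᶠ m : ℕ in atTop,
      FF μ (m ^ d) ≤ 1 / 2 * FF μ (3 * m ^ d) + C * (m : ℝ) ^ (g + 1)) :
    ∃ C : ℝ, 0 ≤ C ∧ ∀ N : ℕ, 1 ≤ N →
      FF μ N ≤ 1 / 2 * FF μ (7 * N / 2) + C * (N : ℝ) ^ (((g : ℝ) + 1) / d) := by
  obtain ⟨m₀, hm₀⟩ := eventually_atTop.1 h1
  have hd' : (1 : ℝ) ≤ d := by exact_mod_cast hd
  set θ : ℝ := ((g : ℝ) + 1) / d with hθ
  have hθ0 : 0 ≤ θ := by positivity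
  set m₁ := m₀ + 7 * d + 2 with hm₁
  set N₀ := m₁ ^ d with hN₀
  have hFN := FF_nonneg (μ := μ) N₀
  refine ⟨C * 2 ^ (g + 1) + FF μ N₀, by positivity, fun N hN => ?_⟩
  have hN' : (1 : ℝ) ≤ N := by exact_mod_cast hN
  have hNθ : 1 ≤ (N : ℝ) ^ θ := Real.one_le_rpow hN' hθ0
  have hF2 := FF_nonneg (μ := μ) (7 * N / 2)
  have hCN : 0 ≤ C * 2 ^ (g + 1) * (N : ℝ) ^ θ := by positivity
  rw [add_mul]
  by_cases hcase : N ≤ N₀
  · have h2 : FF μ N ≤ FF μ N₀ := FF_mono μ hcase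
    have h3 : FF μ N₀ ≤ FF μ N₀ * (N : ℝ) ^ θ := le_mul_of_one_le_right hFN hNθ
    linarith
  · push Not at hcase
    obtain ⟨m, hm1, hm2, hm3⟩ := exists_root hd hN
    have hmm : m₁ < m := by
      by_contra hcon
      push Not at hcon
      have : m ^ d ≤ m₁ ^ d := Nat.pow_le_pow_left hcon d
      omega
    have hrec := hm₀ m (by omega)
    have hm0' : (0 : ℝ) < m := by
      have : 0 < m := by omega
      exact_mod_cast this
    have hb1 : (m : ℝ) ^ d ≤ 7 / 6 * N := by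
      have h2 := one_add_mul_le_pow (a := -(1 / (m : ℝ))) (by
        have : 1 / (m : ℝ) ≤ 1 := by
          rw [div_le_one hm0']
          exact_mod_cast hm1
        linarith) d
      have h3 : (6 : ℝ) / 7 ≤ 1 + d * -(1 / (m : ℝ)) := by
        have h4 : (d : ℝ) * (1 / (m : ℝ)) ≤ 1 / 7 := by
          rw [mul_one_div, div_le_iff₀ hm0']
          have : 7 * (d : ℝ) ≤ m := by
            have : 7 * d ≤ m := by omega
            exact_mod_cast this
          linarith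
        linarith
      have h4 : (1 + -(1 / (m : ℝ))) ^ d * (m : ℝ) ^ d = ((m - 1 : ℕ) : ℝ) ^ d := by
        rw [← mul_pow]
        congr 1
        rw [Nat.cast_sub hm1]
        field_simp
        push_cast
        ring
      have h5 : ((m - 1 : ℕ) : ℝ) ^ d ≤ N := by exact_mod_cast hm3.le
      have h6 : (6 : ℝ) / 7 * (m : ℝ) ^ d ≤ N := by
        refine le_trans ?_ h5
        rw [← h4]
        exact mul_le_mul_of_nonneg_right (h3.trans h2) (by positivity)
      linarith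
    have hb2 : 3 * m ^ d ≤ 7 * N / 2 := by
      rw [Nat.le_div_iff_mul_le (by norm_num)]
      have h2 : (3 * m ^ d * 2 : ℝ) ≤ 7 * N := by linarith
      exact_mod_cast h2
    have hb3 : (m : ℝ) ^ (g + 1) ≤ 2 ^ (g + 1) * (N : ℝ) ^ θ := by
      have h2 : (m : ℝ) ≤ 2 * ((m - 1 : ℕ) : ℝ) := by
        have : m ≤ 2 * (m - 1) := by omega
        exact_mod_cast this
      have h3 : ((m - 1 : ℕ) : ℝ) ≤ (N : ℝ) ^ (1 / (d : ℝ)) := by
        have h4 : ((m - 1 : ℕ) : ℝ) ^ d ≤ N := by exact_mod_cast hm3.le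
        have h5 : (((m - 1 : ℕ) : ℝ) ^ d) ^ (1 / (d : ℝ)) ≤ (N : ℝ) ^ (1 / (d : ℝ)) :=
          Real.rpow_le_rpow (by positivity) h4 (by positivity)
        rwa [← Real.rpow_natCast, ← Real.rpow_mul (Nat.cast_nonneg _), mul_one_div_cancel (by
          linarith), Real.rpow_one] at h5
      calc (m : ℝ) ^ (g + 1) ≤ (2 * ((m - 1 : ℕ) : ℝ)) ^ (g + 1) :=
            pow_le_pow_left₀ hm0'.le h2 _
        _ = 2 ^ (g + 1) * ((m - 1 : ℕ) : ℝ) ^ (g + 1) := mul_pow _ _ _
        _ ≤ 2 ^ (g + 1) * ((N : ℝ) ^ (1 / (d : ℝ))) ^ (g + 1) :=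
            mul_le_mul_of_nonneg_left (pow_le_pow_left₀ (Nat.cast_nonneg _) h3 _) (by positivity)
        _ = _ := by
            rw [← Real.rpow_natCast ((N : ℝ) ^ (1 / (d : ℝ))), ← Real.rpow_mul (by linarith)]
            congr 2
            rw [hθ]
            push_cast
            ring
    have h6 : FF μ N ≤ FF μ (m ^ d) := FF_mono μ hm2
    have h7 : FF μ (3 * m ^ d) ≤ FF μ (7 * N / 2) := FF_mono μ hb2
    have h8 : C * (m : ℝ) ^ (g + 1) ≤ C * (2 ^ (g + 1) * (N : ℝ) ^ θ) :=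
      mul_le_mul_of_nonneg_left hb3 hC
    have h9 : 0 ≤ FF μ N₀ * (N : ℝ) ^ θ := by positivity
    linarith

-- END fi2

-- BEGIN fi3
-- END fi3

-- BEGIN fi4
-- END fi4

end Pool.Agent.SwX
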