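import Pool.Agent.SwX.Basic

/-! ROW A5. The staircase. -/

namespace Pool.Agent.SwX

variable [Pool.Agent.SwP.Dim]
set_option maxHeartbeats 400000

open Finset Filter
open scoped Classical
open Pool.Agent.SwP

-- BEGIN pa1
theorem pa1_ax_same (c : Ix) (t : ℤ) : ax c t c = t := by simp [ax]

theorem pa1_ax_ne {c k : Ix} (h : k ≠ c) (t : ℤ) : ax c t k = 0 := by simp [ax, h]

/-- a positive move along an axis keeps a point ahead -/
theorem Ahd.add_ax {y : Pt} (h : Ahd y) (c : Ix) {L : ℤ} (hL : 0 ≤ L) : Ahd (y + ax c L) := by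
  obtain ⟨i, hi, h1⟩ := h
  by_cases hc : y i ≤ y c + L
  · by_cases hci : i = c
    · subst hci
      refine ⟨i, by rw [Pi.add_apply, pa1_ax_same]; omega, fun k => ?_⟩
      rw [Pi.add_apply, Pi.add_apply, pa1_ax_same]
      have := (h1 k).1
      have := (h1 k).2
      by_cases hk : k = i
      · subst hk
        rw [pa1_ax_same]
        omega
      · rw [pa1_ax_ne hk]
        omega
    · refine ⟨c, by rw [Pi.add_apply, pa1_ax_same]; omega, fun k => ?_⟩
      rw [Pi.add_apply, Pi.add_apply, pa1_ax_same]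
      have := (h1 k).1
      have := (h1 k).2
      by_cases hk : k = c
      · subst hk
        rw [pa1_ax_same]
        omega
      · rw [pa1_ax_ne hk]
        omega
  · push Not at hc
    have hci : i ≠ c := by
      rintro rfl
      omega
    refine ⟨i, by rw [Pi.add_apply, pa1_ax_ne hci]; omega, fun k => ?_⟩
    rw [Pi.add_apply, Pi.add_apply, pa1_ax_ne hci]
    have := (h1 k).1
    have := (h1 k).2
    by_cases hk : k = c
    · subst hk
      rw [pa1_ax_same]
      omega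
    · rw [pa1_ax_ne hk]
      omega

/-- a point of a double cone is not a point behind its start -/
theorem Ahd.cone_ne {y δ : Pt} (h : Ahd y) (c : Ix) {t : ℤ} (ht : 0 ≤ t)
    (hδ : ∀ k, 12 * |δ k| ≤ t) : y + ax c t + δ ≠ 0 := by
  intro h0
  obtain ⟨i, hi, h1⟩ := h
  have e1 : ∀ k, y k + ax c t k + δ k = 0 := fun k => congrFun h0 k
  have a1 := hδ i
  have a2 := hδ c
  have b1 := abs_le.1 (le_refl |δ i|)
  have b2 := abs_le.1 (le_refl |δ c|)
  have e2 := e1 i
  have e3 := e1 c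
  rw [pa1_ax_same] at e3
  have := (h1 c).1
  have := (h1 c).2
  by_cases hic : i = c
  · subst hic
    omega
  · rw [pa1_ax_ne hic] at e2
    omega

/-- the end of a double cone is ahead of its points -/
theorem Ahd_cone {δ : Pt} (c : Ix) {t : ℤ} (ht : 0 < t) (hδ : ∀ k, 12 * |δ k| ≤ t) :
    Ahd (ax c t - δ) := by
  have b2 := abs_le.1 (le_refl |δ c|)
  have a2 := hδ c
  refine ⟨c, by rw [Pi.sub_apply, pa1_ax_same]; omega, fun k => ?_⟩
  rw [Pi.sub_apply, Pi.sub_apply, pa1_ax_same]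
  have b1 := abs_le.1 (le_refl |δ k|)
  have a1 := hδ k
  by_cases hk : k = c
  · subst hk
    rw [pa1_ax_same]
    omega
  · rw [pa1_ax_ne hk]
    omega
-- END pa1

-- BEGIN pa2
theorem pa2_pts_map (S : Sy) (v : Word) : pts (v.map S.g) = (pts v).image S.A := by
  ext p
  rw [mem_image]
  constructor
  · intro h
    obtain ⟨a, b, hab, rfl⟩ := mem_pts.1 h
    obtain ⟨a', b', h1, h2, -⟩ := List.map_eq_append_iff.1 hab
    refine ⟨D a', mem_pts.2 ⟨a', b', h1, rfl⟩, ?_⟩
    rw [← h2, S.D_map]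
  · rintro ⟨q, hq, rfl⟩
    obtain ⟨a, b, rfl, rfl⟩ := mem_pts.1 hq
    exact mem_pts.2 ⟨a.map S.g, b.map S.g, by rw [List.map_append], S.D_map a⟩

theorem pa2_ax (c : Ix) (t : ℤ) : (perm (Equiv.swap 0 c)).A (ax 0 t) = ax c t := by
  ext k
  show ax 0 t ((Equiv.swap 0 c).symm k) = _
  rw [Equiv.symm_swap]
  unfold ax
  by_cases hk : k = c
  · subst hk
    rw [Equiv.swap_apply_right, Pi.single_eq_same, Pi.single_eq_same]
  · rw [Pi.single_eq_of_ne hk, Pi.single_eq_of_ne]
    intro h0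
    apply hk
    have h4 := congrArg (Equiv.swap 0 c) h0
    rwa [Equiv.swap_apply_self, Equiv.swap_apply_left] at h4

theorem pa2_invol (c : Ix) (p : Pt) :
    (perm (Equiv.swap 0 c)).A ((perm (Equiv.swap 0 c)).A p) = p := by
  ext k
  show p ((Equiv.swap 0 c).symm ((Equiv.swap 0 c).symm k)) = p k
  rw [Equiv.symm_swap, Equiv.swap_apply_self]

/-- exit words, where the start may be an obstacle -/
def pa2_W (X : Finset Pt) (ω : ℕ → ℕ) (j : ℕ) (w : Word) : Prop :=
  saw w ∧ D w = cor ω j ∧ (∀ p ∈ pts w, p ≠ D w → Ahd (D w - p)) ∧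
    ∀ p ∈ pts w, p ∈ X → p = 0 ∨ ∃ i < j, ∃ s : ℕ, s ≤ ω i ∧ p = cor ω i + ax (dr i) s

theorem pa2_nil (X : Finset Pt) (ω : ℕ → ℕ) : pa2_W X ω 0 [] := by
  have h0 : ∀ p ∈ pts [], p = 0 := by
    intro p hp
    obtain ⟨a, b, hab, rfl⟩ := mem_pts.1 hp
    rw [(List.append_eq_nil_iff.1 hab.symm).1]
    rfl
  refine ⟨saw_nil, ?_, ?_, fun p hp _ => Or.inl (h0 p hp)⟩
  · unfold cor
    simp
  · intro p hp hne
    exact absurd (h0 p hp) hne

theorem pa2_step {X : Finset Pt} {ω : ℕ → ℕ} {j : ℕ} {w v : Word} (hw : pa2_W X ω j w)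
    (hv : Seg (obs X ω j) (ω j) v) :
    pa2_W X ω (j + 1) (w ++ v.map (perm (Equiv.swap 0 (dr j))).g) := by
  obtain ⟨h1, h2, h3, h4⟩ := hw
  set S := perm (Equiv.swap 0 (dr j)) with hS
  have hDu : D (v.map S.g) = ax (dr j) (ω j) := by
    rw [S.D_map, hv.disp, hS, pa2_ax]
  have hcor : cor ω (j + 1) = cor ω j + ax (dr j) (ω j) := by
    unfold cor
    rw [sum_range_succ]
  have hD : D (w ++ v.map S.g) = cor ω j + ax (dr j) (ω j) := by
    rw [D_append, h2, hDu]
  have hcone : ∀ q ∈ pts (v.map S.g), ∃ t : ℕ, t ≤ ω j ∧ ∃ δ : Pt, q = ax (dr j) t + δ ∧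
      ∀ k, 12 * |δ k| ≤ (t : ℤ) ∧ 12 * |δ k| ≤ (ω j : ℤ) - t := by
    intro q hq
    rw [pa2_pts_map, mem_image] at hq
    obtain ⟨p, hp, rfl⟩ := hq
    obtain ⟨t, ht, hk⟩ := hv.cone p hp
    refine ⟨t, ht, S.A (p - ax 0 t), ?_, fun k => ?_⟩
    · rw [map_sub, hS, pa2_ax, ← hS]
      abel
    · have h5 : S.A (p - ax 0 t) k = p ((Equiv.swap 0 (dr j)).symm k)
          - ax 0 (t : ℤ) ((Equiv.swap 0 (dr j)).symm k) := rfl
      rw [h5]
      exact hk _
  refine ⟨?_, ?_, ?_, ?_⟩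
  · apply saw_of_rep
    rw [rep_append, h1.rep, (hv.br.1.map S).rep, zero_add, zero_add, card_eq_zero,
      eq_empty_iff_forall_notMem]
    intro p hp
    rw [mem_inter, mem_erase, mem_tr] at hp
    obtain ⟨⟨h5, h6⟩, h7⟩ := hp
    obtain ⟨t, ht, δ, h8, h9⟩ := hcone _ h7
    have h10 := (h3 p h6 h5).cone_ne (dr j) (t := (t : ℤ)) (by positivity) (fun k => (h9 k).1)
    apply h10
    rw [add_assoc, ← h8]
    abel
  · rw [hD, hcor]
  · intro p hp hne
    rw [hD] at hne ⊢
    have key : ∀ q ∈ pts (v.map S.g), p = cor ω j + q →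
        Ahd (cor ω j + ax (dr j) (ω j) - p) := by
      intro q hq hpq
      obtain ⟨t, ht, δ, h8, h9⟩ := hcone q hq
      have h10 : cor ω j + ax (dr j) (ω j) - p = ax (dr j) ((ω j : ℤ) - t) - δ := by
        rw [hpq, h8]
        have h11 : ax (dr j) ((ω j : ℤ) - t) = ax (dr j) (ω j : ℤ) - ax (dr j) (t : ℤ) := by
          unfold ax
          rw [Pi.single_sub]
        rw [h11]
        abel
      rw [h10]
      refine Ahd_cone (dr j) ?_ (fun k => (h9 k).2)
      have h12 : (t : ℤ) ≤ ω j := by exact_mod_cast ht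
      rcases h12.lt_or_eq with h13 | h13
      · linarith
      · exfalso
        apply hne
        have h14 : δ = 0 := by
          ext k
          have h15 := (h9 k).2
          rw [h13, sub_self] at h15
          have h16 := abs_nonneg (δ k)
          have h17 : |δ k| = 0 := by omega
          exact abs_eq_zero.1 h17
        rw [hpq, h8, h14, add_zero, h13]
    rw [pts_append, mem_union, mem_tr, h2] at hp
    rcases hp with hp | hp
    · by_cases h5 : p = D w
      · exact key 0 (zero_mem_pts _) (by rw [h5, h2, add_zero])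
      · have h6 := (h3 p hp h5).add_ax (dr j) (L := (ω j : ℤ)) (by positivity)
        rw [h2] at h6
        have h7 : cor ω j + ax (dr j) (ω j) - p = cor ω j - p + ax (dr j) (ω j : ℤ) := by abel
        rw [h7]
        exact h6
    · exact key (p - cor ω j) hp (by abel)
  · intro p hp hpX
    rw [pts_append, mem_union, mem_tr, h2] at hp
    rcases hp with hp | hp
    · rcases h4 p hp hpX with h5 | ⟨i, hi, h5⟩
      · exact Or.inl h5
      · exact Or.inr ⟨i, by omega, h5⟩
    · right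
      refine ⟨j, by omega, ?_⟩
      rw [pa2_pts_map, mem_image] at hp
      obtain ⟨p', hp', hpp⟩ := hp
      have h5 : p' ∈ obs X ω j := by
        unfold obs
        refine mem_image.2 ⟨p - cor ω j, ?_, ?_⟩
        · rw [mem_tr]
          have h6 : p - cor ω j - - cor ω j = p := by abel
          rw [h6]
          exact hpX
        · rw [← hpp, hS, pa2_invol]
      obtain ⟨t, ht, h6⟩ := hv.hit p' hp' h5
      refine ⟨t, ht, ?_⟩
      rw [h6, hS, pa2_ax] at hpp
      rw [hpp]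
      abel

theorem pa2_main {x : ℝ} (hx : 0 < x) {L m : ℕ} {I : ℕ → ℕ} {a b : ℕ → ℕ → ℝ}
    (hS : ∀ j, SegLaw x L m (I j) (a j) (b j)) (X : Finset Pt) (ω : ℕ → ℕ) (K : ℕ) :
    ∃ Z : Law, (∀ i, pa2_W X ω K (Z.f i)) ∧
      (∀ i, ((Z.f i).length : ℝ) ≤ ∑ j ∈ range K, sc (obs X ω j) (ω j) m (I j) (b j)) ∧
      Dom x L Z (Real.exp (∑ j ∈ range K,
        (sc (obs X ω j) (ω j) m (I j) (a j) + Real.log (L + 1)))) := by
  induction K with
  | zero =>
    refine ⟨Law.dirac [], fun _ => pa2_nil X ω, fun i => ?_, ?_⟩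
    · show (([] : Word).length : ℝ) ≤ _
      simp
    · have h := Dom.dirac hx (L := L) []
      simpa using h
  | succ K ih =>
    obtain ⟨Z, h1, h2, h3⟩ := ih
    obtain ⟨V, h4, h5, h6⟩ := hS K (obs X ω K) (ω K)
    refine ⟨Z.conv (V.map (perm (Equiv.swap 0 (dr K))).g), fun i => ?_, fun i => ?_, ?_⟩
    · exact pa2_step (h1 i.1) (h4 i.2)
    · show ((Z.f i.1 ++ (V.f i.2).map (perm (Equiv.swap 0 (dr K))).g).length : ℝ) ≤ _
      rw [List.length_append, List.length_map, sum_range_succ]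
      push_cast
      exact add_le_add (h2 i.1) (h5 i.2)
    · have h7 := Dom.conv hx.le (Real.exp_pos _).le (Real.exp_pos _).le h3
        (h6.map hx.le (Real.exp_pos _).le (perm (Equiv.swap 0 (dr K))).ginj)
      refine h7.mono hx.le (le_of_eq ?_)
      have hL : (0 : ℝ) < (L : ℝ) + 1 := by positivity
      rw [sum_range_succ, Real.exp_add, Real.exp_add, Real.exp_log hL]
      ring

/-- **Exit path.** By induction on `K`: a word with `Gw X ω j`, followed by a word with
`Seg (obs X ω j) (ω j)` mapped by `perm (swap 0 (dr j))`. The union is self-avoiding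
(`rep_append`, `saw_of_rep`, `Ahd.cone_ne`) and stays behind its end. -/
theorem exit_path {x : ℝ} (hx : 0 < x) {L m : ℕ} {I : ℕ → ℕ} {a b : ℕ → ℕ → ℝ}
    (hS : ∀ j, SegLaw x L m (I j) (a j) (b j)) (X : Finset Pt) (ω : ℕ → ℕ) (K : ℕ)
    (hK : 1 ≤ K) :
    ∃ Z : Law, (∀ i, Gw X ω K (Z.f i)) ∧
      (∀ i, ((Z.f i).length : ℝ) ≤ ∑ j ∈ range K, sc (obs X ω j) (ω j) m (I j) (b j)) ∧
      Dom x L Z (Real.exp (∑ j ∈ range K,
        (sc (obs X ω j) (ω j) m (I j) (a j) + Real.log (L + 1)))) := by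
  obtain ⟨Z, h1, h2, h3⟩ := pa2_main hx hS X ω K
  refine ⟨Z, fun i => ?_, h2, h3⟩
  obtain ⟨h4, h5, h6, h7⟩ := h1 i
  refine ⟨h4, h5, h6, fun p hp hpX => ?_⟩
  rcases h7 p hp hpX with h8 | h8
  · refine ⟨0, hK, 0, Nat.zero_le _, ?_⟩
    rw [h8]
    unfold cor ax
    simp
  · exact h8
-- END pa2

-- BEGIN pa3
/-- the number of obstacles on an exit word -/
theorem card_hit_le {X : Finset Pt} {ω : ℕ → ℕ} {K : ℕ} {w : Word} (h : Gw X ω K w) :
    (pts w ∩ X).card ≤ ∑ j ∈ range K, (1 + cnt X ω j 1) := by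
  have hsub : pts w ∩ X ⊆ (range K).biUnion fun j =>
      insert (cor ω j + ax (dr j) ((ω j : ℕ) : ℤ))
        (((range (ω j)).filter fun s : ℕ =>
          ∃ p ∈ X, ∀ k, |p k - (cor ω j + ax (dr j) (s : ℤ)) k| < ((1 : ℕ) : ℤ)).image
            fun s : ℕ => cor ω j + ax (dr j) (s : ℤ)) := by
    intro p hp
    rw [mem_inter] at hp
    obtain ⟨i, hi, s, hs, hps⟩ := h.hit p hp.1 hp.2
    refine mem_biUnion.2 ⟨i, mem_range.2 hi, ?_⟩
    rcases hs.lt_or_eq with h1 | h1
    · refine mem_insert_of_mem (mem_image.2 ⟨s, mem_filter.2 ⟨mem_range.2 h1, p, hp.2, ?_⟩,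
        hps.symm⟩)
      intro k
      rw [← hps]
      simp
    · rw [← h1, ← hps]
      exact mem_insert_self _ _
  refine (Finset.card_le_card hsub).trans (Finset.card_biUnion_le.trans ?_)
  refine Finset.sum_le_sum fun j _ => ?_
  refine (Finset.card_insert_le _ _).trans ?_
  rw [add_comm]
  exact Nat.add_le_add_left Finset.card_image_le 1
-- END pa3

end Pool.Agent.SwX
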