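import Pool.Agent.SwX.Basic
import Pool.Agent.SwX.Blocks
import Pool.Agent.SwX.Segment
import Pool.Agent.SwX.Path
import Pool.Agent.SwX.Avg

/-! ROW A8. Numerical estimates; choice of the blocks; most staircases are cheap. -/

namespace Pool.Agent.SwX

variable [Pool.Agent.SwP.Dim]
set_option maxHeartbeats 400000

open Finset Filter
open scoped Classical
open Pool.Agent.SwP

/-- the scale `m ^ X0` of the end of the staircase: `2 d - g ≤ dd X0` -/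
def X0 (d g : ℕ) : ℕ := (2 * d - g + (Dim.k + 1)) / dd

/-- the number of segments -/
def KK (d g : ℕ) : ℕ := dd * (X0 d g - g + 1)

/-- the bound for the mean number of positions near the obstacles, on a segment of scale `m ^ y` -/
noncomputable def cc (m y : ℕ) (V : ℝ) : ℝ :=
  min (2 * (m : ℝ) ^ y) (2 * (m : ℝ) ^ y * V / (m : ℝ) ^ (dd * (y - 1)))

-- BEGIN nu1

-- END nu1

-- BEGIN nu2

-- END nu2

-- BEGIN nu3

-- END nu3

-- BEGIN nu4

-- END nu4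

-- BEGIN nu5

theorem nu5_cc (m y : ℕ) {V : ℝ} (hV : 0 ≤ V) : 0 ≤ cc m y V := by
  unfold cc
  exact le_min (by positivity) (by positivity)

-- END nu5

-- BEGIN nu6
theorem nu6_one {α : Type*} (S : Finset α) {f : α → ℝ} {c : ℝ} (p : ∀ x ∈ S, 0 ≤ f x)
    (h : ∑ x ∈ S, f x ≤ S.card * c) : 4 * (S.filter fun x => 4 * c < f x).card ≤ S.card := by
  rcases S.eq_empty_or_nonempty with h0 | h0
  · simp [h0]
  have hS : (0 : ℝ) < S.card := by exact_mod_cast h0.card_pos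
  have hs : 0 ≤ ∑ x ∈ S, f x := sum_nonneg p
  have hc : 0 ≤ c := by
    by_contra hc
    push Not at hc
    nlinarith
  rcases hc.eq_or_lt with h1 | h1
  · have h2 : ∑ x ∈ S, f x = 0 := le_antisymm (by rw [← h1, mul_zero] at h; exact h) hs
    have h3 := (sum_eq_zero_iff_of_nonneg p).1 h2
    have h4 : (S.filter fun x => 4 * c < f x) = ∅ := by
      refine filter_eq_empty_iff.2 fun x hx => ?_
      rw [h3 x hx, ← h1, mul_zero]
      exact lt_irrefl _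
    rw [h4, card_empty, mul_zero]
    exact Nat.zero_le _
  · have h2 : ((S.filter fun x => 4 * c < f x).card : ℝ) * (4 * c) ≤ ∑ x ∈ S, f x := by
      rw [← nsmul_eq_mul, ← sum_const]
      refine (sum_le_sum fun x hx => (mem_filter.1 hx).2.le).trans ?_
      exact sum_le_sum_of_subset_of_nonneg (filter_subset _ _) fun x hx _ => p x hx
    have h3 : 4 * ((S.filter fun x => 4 * c < f x).card : ℝ) ≤ S.card := by
      by_contra hcon
      push Not at hcon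
      nlinarith
    exact_mod_cast h3

theorem markov3 {α : Type*} (S : Finset α) {f₁ f₂ f₃ : α → ℝ} {c₁ c₂ c₃ : ℝ}
    (p₁ : ∀ x ∈ S, 0 ≤ f₁ x) (p₂ : ∀ x ∈ S, 0 ≤ f₂ x) (p₃ : ∀ x ∈ S, 0 ≤ f₃ x)
    (h₁ : ∑ x ∈ S, f₁ x ≤ S.card * c₁) (h₂ : ∑ x ∈ S, f₂ x ≤ S.card * c₂)
    (h₃ : ∑ x ∈ S, f₃ x ≤ S.card * c₃) :
    ∃ G ⊆ S, S.card ≤ 4 * G.card ∧ ∀ x ∈ G, f₁ x ≤ 4 * c₁ ∧ f₂ x ≤ 4 * c₂ ∧ f₃ x ≤ 4 * c₃ := by
  have b₁ := nu6_one S p₁ h₁
  have b₂ := nu6_one S p₂ h₂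
  have b₃ := nu6_one S p₃ h₃
  refine ⟨S.filter fun x => f₁ x ≤ 4 * c₁ ∧ f₂ x ≤ 4 * c₂ ∧ f₃ x ≤ 4 * c₃, filter_subset _ _, ?_,
    fun x hx => (mem_filter.1 hx).2⟩
  have h4 : S ⊆ (S.filter fun x => f₁ x ≤ 4 * c₁ ∧ f₂ x ≤ 4 * c₂ ∧ f₃ x ≤ 4 * c₃) ∪
      ((S.filter fun x => 4 * c₁ < f₁ x) ∪ ((S.filter fun x => 4 * c₂ < f₂ x) ∪
        (S.filter fun x => 4 * c₃ < f₃ x))) := by
    intro x hx
    simp only [mem_union, mem_filter, hx, true_and]
    by_cases q₁ : f₁ x ≤ 4 * c₁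
    · by_cases q₂ : f₂ x ≤ 4 * c₂
      · by_cases q₃ : f₃ x ≤ 4 * c₃
        · exact Or.inl ⟨q₁, q₂, q₃⟩
        · exact Or.inr (Or.inr (Or.inr (not_le.1 q₃)))
      · exact Or.inr (Or.inr (Or.inl (not_le.1 q₂)))
    · exact Or.inr (Or.inl (not_le.1 q₁))
  have h5 := (card_le_card h4).trans ((card_union_le _ _).trans (Nat.add_le_add_left
    ((card_union_le _ _).trans (Nat.add_le_add_left (card_union_le _ _) _)) _))
  omega
-- END nu6

-- BEGIN nu7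

theorem nu7_split {K : ℕ} (hK : dd ≤ K) (f : ℕ → ℝ) :
    ∑ j ∈ range K, f j = ∑ j ∈ range dd, f j + ∑ j ∈ Ico dd K, f j := by
  rw [range_eq_Ico, ← sum_Ico_consecutive f (Nat.zero_le dd) hK, ← range_eq_Ico]

-- END nu7

end Pool.Agent.SwX
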